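import Pool.Agent.H.MP_11f428_an.Main

namespace Pool.Agent.Results.MP_11f428_an.Shrinking

open Filter Topology

theorem result (𝕜 E : Type) [RCLike 𝕜] [NormedAddCommGroup E] [NormedSpace 𝕜 E] [CompleteSpace E]
    (x : ℕ → E) (f : ℕ → E →L[𝕜] 𝕜) (_ : ∀ i j, f i (x j) = if i = j then 1 else 0)
    (hd : Dense (Submodule.span 𝕜 (Set.range x) : Set E))
    (ht : ∀ y, (∀ n, f n y = 0) → y = 0)
    (hb : ∀ (g : ℕ → E →L[𝕜] 𝕜) (α : ℕ → 𝕜),
      (∀ j, g j ∈ (Submodule.span 𝕜 (Set.range f)).topologicalClosure) → (∃ C, ∀ j, ‖g j‖ ≤ C) →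
      (∀ n, Tendsto (fun j => g j (x n)) atTop (𝓝 (α n))) →
      ∃ h ∈ (Submodule.span 𝕜 (Set.range f)).topologicalClosure, ∀ n, h (x n) = α n) :
    (Submodule.span 𝕜 (Set.range f)).topologicalClosure = ⊤ := by
  refine eq_top_iff.2 fun g _ => ?_
  obtain ⟨h, e⟩ := Pool.Agent.H.MP_11f428_an.onto
    (W := (Submodule.span 𝕜 (Set.range f)).topologicalClosure)
    (Submodule.span 𝕜 (Set.range f)).topologicalClosure.subtypeL (fun _ => le_rfl) x hd
    (fun y hy => ht y fun n =>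
      hy ⟨f n, Submodule.le_topologicalClosure _ (Submodule.subset_span ⟨n, rfl⟩)⟩)
    (fun g α h1 h2 => by
      obtain ⟨h, h3, h4⟩ := hb (fun j => (g j).1) α (fun j => (g j).2) h1 h2
      exact ⟨⟨h, h3⟩, h4⟩) g
  exact e ▸ h.2

end Pool.Agent.Results.MP_11f428_an.Shrinking
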